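import Pool.Agent.Run7.h520.WO.I

/-! Piece INV of the project MP_b29b59_lc: similar tuples have the same type
(adapted from `Pool/Agent/Run7/h704/LW/MOD1.lean`). -/

set_option autoImplicit false

namespace Run7.h574.WO

open FirstOrder FirstOrder.Language Run7.h520.WO

section

variable {M : Type} [LinearOrder M] {E : M → M → Prop} {d : M → M → M}

theorem PI.symm {R : M → M → Prop} (h : PI E d R) : PI E d (fun a b => R b a) where
  fin := by
    have := h.fin.image Prod.swap
    refine this.subset ?_
    rintro ⟨a, b⟩ hab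
    exact ⟨(b, a), hab, rfl⟩
  lt := fun x x' y y' h1 h2 => (h.lt _ _ _ _ h1 h2).symm
  eq := fun x x' y y' h1 h2 => (h.eq _ _ _ _ h1 h2).symm
  dd := fun x x' y y' h1 h2 => h.dd _ _ _ _ h1 h2

theorem PI.iff_eq {R : M → M → Prop} (h : PI E d R) {x x' y y' : M} (h1 : R x x') (h2 : R y y') :
    x = y ↔ x' = y' := by
  have a := h.lt _ _ _ _ h1 h2
  have b := h.lt _ _ _ _ h2 h1
  constructor
  · intro e
    subst e
    rcases lt_trichotomy x' y' with c | c | c
    · exact absurd (a.2 c) (lt_irrefl _)
    · exact c
    · exact absurd (b.2 c) (lt_irrefl _)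
  · intro e
    subst e
    rcases lt_trichotomy x y with c | c | c
    · exact absurd (a.1 c) (lt_irrefl _)
    · exact c
    · exact absurd (b.1 c) (lt_irrefl _)

/-- a term of the language is a variable -/
theorem term_var {σ : Type} (t : L3.Term σ) : ∃ v : σ, t = Term.var v := by
  cases t with
  | var v => exact ⟨v, rfl⟩
  | func f _ => exact f.elim

theorem inv_aux (hBF : S_BF) (hA : Ax E d) (hE : Ext E d) {α : Type} {n : ℕ}
    (φ : L3.BoundedFormula α n) :
    letI := str E d
    ∀ (R : M → M → Prop), PI E d R → ∀ (v v' : α → M) (x x' : Fin n → M),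
      (∀ i, R (v i) (v' i)) → (∀ j, R (x j) (x' j)) → (φ.Realize v x ↔ φ.Realize v' x') := by
  letI := str E d
  induction φ with
  | falsum => intro R _ v v' x x' _ _; exact Iff.rfl
  | equal t₁ t₂ =>
    intro R hR v v' x x' h h'
    obtain ⟨i, rfl⟩ := term_var t₁
    obtain ⟨j, rfl⟩ := term_var t₂
    simp only [BoundedFormula.Realize, Term.realize_var]
    have hw : ∀ i, R (Sum.elim v x i) (Sum.elim v' x' i) := by
      rintro (i | i)
      · exact h i
      · exact h' i
    exact PI.iff_eq hR (hw i) (hw j)
  | @rel n l Rr ts =>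
    intro R hR v v' x x' h h'
    choose w hw using fun i => term_var (ts i)
    have hq : ∀ i, R (Sum.elim v x i) (Sum.elim v' x' i) := by
      rintro (i | i)
      · exact h i
      · exact h' i
    simp only [BoundedFormula.Realize]
    have e1 : (fun i => (ts i).realize (Sum.elim v x)) = fun i => (Sum.elim v x) (w i) := by
      funext i; simp [hw]
    have e2 : (fun i => (ts i).realize (Sum.elim v' x')) = fun i => (Sum.elim v' x') (w i) := by
      funext i; simp [hw]
    rw [e1, e2]
    cases Rr with
    | lt => exact hR.lt _ _ _ _ (hq _) (hq _)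
    | eq => exact hR.eq _ _ _ _ (hq _) (hq _)
    | dd => exact PI.iff_eq hR (hR.dd _ _ _ _ (hq _) (hq _)) (hq _)
  | imp _ _ ih₁ ih₂ =>
    intro R hR v v' x x' h h'
    simp only [BoundedFormula.Realize]
    rw [ih₁ R hR v v' x x' h h', ih₂ R hR v v' x x' h h']
  | @all n φ ih =>
    have key : ∀ (R : M → M → Prop), PI E d R → ∀ (v v' : α → M) (x x' : Fin n → M),
        (∀ i, R (v i) (v' i)) → (∀ j, R (x j) (x' j)) → (∀ a, φ.Realize v (Fin.snoc x a)) →
          ∀ a, φ.Realize v' (Fin.snoc x' a) := by
      intro R hR v v' x x' h h' hall a'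
      obtain ⟨R', a, hR', hs, ha⟩ := hBF M E d hA hE _ (PI.symm hR) a'
      refine (ih _ (PI.symm hR') v v' (Fin.snoc x a) (Fin.snoc x' a') ?_ ?_).1 (hall a)
      · intro i
        exact hs _ _ (h i)
      · intro j
        refine Fin.lastCases ?_ (fun i => ?_) j
        · simpa using ha
        · simpa using hs _ _ (h' i)
    intro R hR v v' x x' h h'
    simp only [BoundedFormula.Realize]
    exact ⟨key R hR v v' x x' h h', key _ (PI.symm hR) v' v x' x h h'⟩

end

theorem inv : S_INV := by
  intro hBF M _ E d hA hE α _ s t hst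
  obtain ⟨R, hR, hi⟩ := hst
  intro φ
  exact inv_aux hBF hA hE φ R hR s t default default hi (fun j => j.elim0)

end Run7.h574.WO
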