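import Pool.Agent.Run7.h574.WO.INV

/-! Piece WOM of the project MP_b29b59_lc: weak o-minimality. -/

set_option autoImplicit false

namespace Run7.h574.WO

open FirstOrder FirstOrder.Language Run7.h520.WO

section

variable {M : Type} [LinearOrder M] {E : M → M → Prop} {d : M → M → M}

theorem PI.comp {R R' : M → M → Prop} (h : PI E d R) (h' : PI E d R') :
    PI E d (fun a c => ∃ b, R a b ∧ R' b c) where
  fin := by
    have := (h.fin.prod h'.fin).image (fun p : (M × M) × (M × M) => (p.1.1, p.2.2))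
    refine this.subset ?_
    rintro ⟨a, c⟩ ⟨b, h1, h2⟩
    exact ⟨((a, b), (b, c)), ⟨h1, h2⟩, rfl⟩
  lt := by
    rintro x x' y y' ⟨a, h1, h2⟩ ⟨b, h3, h4⟩
    exact (h.lt _ _ _ _ h1 h3).trans (h'.lt _ _ _ _ h2 h4)
  eq := by
    rintro x x' y y' ⟨a, h1, h2⟩ ⟨b, h3, h4⟩
    exact (h.eq _ _ _ _ h1 h3).trans (h'.eq _ _ _ _ h2 h4)
  dd := by
    rintro x x' y y' ⟨a, h1, h2⟩ ⟨b, h3, h4⟩
    exact ⟨d a b, h.dd _ _ _ _ h1 h3, h'.dd _ _ _ _ h2 h4⟩

/-- the relation `~` over `A` -/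
def Rl (E : M → M → Prop) (d : M → M → M) (A : Finset M) (x y : M) : Prop :=
  ∃ R, PI E d R ∧ (∀ c ∈ A, R c c) ∧ R x y

theorem Rl.symm {A : Finset M} {x y : M} (h : Rl E d A x y) : Rl E d A y x := by
  obtain ⟨R, hR, h1, h2⟩ := h
  exact ⟨_, PI.symm hR, h1, h2⟩

theorem Rl.trans {A : Finset M} {x y z : M} (h : Rl E d A x y) (h' : Rl E d A y z) :
    Rl E d A x z := by
  obtain ⟨R, hR, h1, h2⟩ := h
  obtain ⟨R', hR', h1', h2'⟩ := h'
  exact ⟨_, PI.comp hR hR', fun c hc => ⟨c, h1 c hc, h1' c hc⟩, ⟨y, h2, h2'⟩⟩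

theorem Rl.refl (hC : S_CLOSE) (hA : Ax E d) (A : Finset M) (x : M) : Rl E d A x x := by
  classical
  obtain ⟨b, hb⟩ := hC M E d hA (insert x A).card
  obtain ⟨B, h1, -, h2⟩ := hb (insert x A) le_rfl
  refine ⟨fun a b => a = b ∧ a ∈ B, ⟨?_, ?_, ?_, ?_⟩, ?_, ?_⟩
  · refine (B.finite_toSet.image (fun a => (a, a))).subset ?_
    rintro ⟨a, b⟩ ⟨h, h'⟩
    simp only at h h'
    subst h
    exact ⟨a, h', rfl⟩
  · rintro x x' y y' ⟨rfl, -⟩ ⟨rfl, -⟩
    rfl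
  · rintro x x' y y' ⟨rfl, -⟩ ⟨rfl, -⟩
    rfl
  · rintro x x' y y' ⟨rfl, h⟩ ⟨rfl, h'⟩
    exact ⟨rfl, h2 _ h _ h'⟩
  · intro c hc
    exact ⟨rfl, h1 (Finset.mem_insert_of_mem hc)⟩
  · exact ⟨rfl, h1 (Finset.mem_insert_self _ _)⟩

end

theorem wom : S_WOM := by
  classical
  intro hCV hC hF hI hBF M _ E d hA hE
  let _ := str E d
  intro s hs
  obtain ⟨A0, -, hA0⟩ := Set.definable_iff_finitely_definable.1 hs
  obtain ⟨φ, hφ⟩ := Set.definable_iff_exists_formula_sum.1 hA0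
  obtain ⟨b, hb⟩ := hC M E d hA A0.card
  obtain ⟨B, hB1, -, hB2⟩ := hb A0 le_rfl
  have hmem : ∀ x : M, x ∈ s ↔
      φ.Realize (Sum.elim (fun a : (A0 : Set M) => (a : M)) (fun _ : Fin 1 => x)) := by
    intro x
    have := Set.ext_iff.1 hφ (fun _ => x)
    simpa using this
  -- invariance
  have hinv : ∀ x y, Rl E d B x y → x ∈ s → y ∈ s := by
    rintro x y ⟨R, hR, h1, h2⟩ hx
    rw [hmem] at hx ⊢
    refine (hI hBF M E d hA hE _ _ _ ⟨R, hR, ?_⟩ φ).1 hx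
    rintro (i | i)
    · exact h1 _ (hB1 i.2)
    · exact h2
  -- finitely many classes
  obtain ⟨F, hFf, hF2⟩ := hF M E d hA (B ⊕ Fin 1)
  choose g hg1 hg2 using fun x : M => hF2 (Sum.elim (fun a : B => (a : M)) (fun _ : Fin 1 => x))
  have hgg : ∀ x y, g x = g y → Rl E d B x y := by
    intro x y h
    obtain ⟨R, hR, h1⟩ := hg2 x
    obtain ⟨R', hR', h1'⟩ := hg2 y
    rw [h] at h1
    refine ⟨_, PI.comp (PI.symm hR) hR', ?_, ?_⟩
    · intro c hc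
      exact ⟨g y (Sum.inl ⟨c, hc⟩), h1 (Sum.inl ⟨c, hc⟩), h1' (Sum.inl ⟨c, hc⟩)⟩
    · exact ⟨g y (Sum.inr 0), h1 (Sum.inr 0), h1' (Sum.inr 0)⟩
  have hcl : ∀ x y, Rl E d B x y → {z | Rl E d B x z} = {z | Rl E d B y z} := by
    intro x y h
    ext z
    exact ⟨fun h' => h.symm.trans h', fun h' => h.trans h'⟩
  refine ⟨(fun x => {z | Rl E d B x z}) '' s, ?_, ?_, ?_⟩
  · -- finite
    have h1 : (g '' s).Finite := hFf.subset (by rintro _ ⟨x, -, rfl⟩; exact hg1 x)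
    -- choose representatives
    have h2 : ((fun x => {z | Rl E d B x z}) '' s) ⊆
        (fun t => {z | ∃ x, g x = t ∧ Rl E d B x z}) '' (g '' s) := by
      rintro _ ⟨x, hx, rfl⟩
      refine ⟨g x, ⟨x, hx, rfl⟩, ?_⟩
      ext z
      constructor
      · rintro ⟨x', h, h'⟩
        exact (hgg x x' h.symm).trans h'
      · intro h
        exact ⟨x, rfl, h⟩
    exact (h1.image _).subset h2
  · rintro _ ⟨x, hx, rfl⟩
    refine ⟨?_⟩
    intro y hy z hz w hw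
    simp only [Set.mem_ofPred_eq] at hy hz ⊢
    rcases eq_or_lt_of_le hw.1 with e | h1
    · rwa [← e]
    rcases eq_or_lt_of_le hw.2 with e | h2
    · rwa [e]
    have h3 : Rl E d B y z := hy.symm.trans hz
    exact hy.trans (hCV M E d hA B hB2 y w z (Or.inl ⟨h1, h2⟩) h3)
  · ext x
    simp only [Set.sUnion_image, Set.mem_iUnion, Set.mem_ofPred_eq, exists_prop]
    constructor
    · intro hx
      exact ⟨x, hx, Rl.refl hC hA B x⟩
    · rintro ⟨y, hy, h⟩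
      exact hinv _ _ h hy

end Run7.h574.WO
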